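import Pool.Agent.Run7.h514.MT.PolDef

/-!
# Products of hyperkähler varieties over finitely generated fields: definitions
-/

set_option autoImplicit false
set_option linter.unusedSectionVars false

namespace Run7.h869.HG

open Matrix NumberField Run7.h457.MT Pool.Agent.N184.HK Pool.Agent.W401.Cheb

noncomputable section

/-! ## One variety -/

/-- The rational cohomology `B` of a complex projective hyperkähler variety of real dimension `d` (of any
deformation type), with the action of `so(H²)` and the Hodge structures `W`, which have polarizations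
(Hodge-Riemann). -/
structure HKC where
  d : ℕ
  two_le : 2 ≤ d
  B : LLV d
  W : B.Hodge
  pol : ∀ i ≤ d, ∃ ψ, Run7.h514.MT.IsPolarization (W.V i) ψ

/-- The cyclotomic character of the absolute Galois group, as a character with values in `ℚ_ℓ`. -/
def cyc (K : Type) [Field K] (ℓ : ℕ) [Fact ℓ.Prime] : GK K →* ℚ_[ℓ] :=
  ((PadicInt.Coe.ringHom (p := ℓ)).toMonoidHom.comp (Units.coeHom ℤ_[ℓ])).comp
    ((cyclotomicCharacter (AlgebraicClosure K) ℓ).comp
      (MulSemiringAction.toRingAut (GK K) (AlgebraicClosure K)))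

/-- The matrix of the endomorphism `f` in the basis `b`. -/
def matOf {F H : Type} [Field F] [AddCommGroup H] [Module F H] {n : ℕ}
    (b : Module.Basis (Fin n) F H) (f : Module.End F H) : Matrix (Fin n) (Fin n) F :=
  LinearMap.toMatrix b b f

/-- The endomorphism with the matrix `A` in the basis `b`. -/
def endOf {F H : Type} [Field F] [AddCommGroup H] [Module F H] {n : ℕ}
    (b : Module.Basis (Fin n) F H) (A : Matrix (Fin n) (Fin n) F) : Module.End F H :=
  Matrix.toLin b b A

/-- The action of the endomorphism `f` of `H²` (an element of `so(H²)`) on `H^i`. -/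
def act {F : Type} [Field F] {d : ℕ} {c : ℚ} (Y : Cohomology F d c) (i : ℕ)
    (f : Module.End F (Y.H 2)) : Module.End F (Y.H i) :=
  Y.ρ i f

/-- Bases of the cohomology groups `Y`, with coefficients in the field `F`, for which the form of
Beauville, Bogomolov and Fujiki and the action of `so(H²)` are given by the rational matrices of the
rational cohomology `B`. -/
structure RatBasis {F : Type} [Field F] [CharZero F] {e : ℕ} {c : ℚ} (Y : Cohomology F e c) {d : ℕ}
    (B : LLV d) where
  b : ∀ i, Module.Basis (Fin (B.n i)) F (Y.H i)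
  hq : ∀ j k, Y.q (b 2 j) (b 2 k) = algebraMap ℚ F (B.q j k)
  hρ : ∀ i (A : Matrix (Fin (B.n 2)) (Fin (B.n 2)) ℚ),
    matOf (b i) (act Y i (endOf (b 2) (A.map (algebraMap ℚ F)))) =
      (B.ρ i A).map (algebraMap ℚ F)

/-- Artin's comparison of the `ℓ`-adic cohomology of the hyperkähler variety `X` over the number field
`K` with the rational cohomology `B` of `X(ℂ)`: `b i` is the basis of `H^i(X, ℚ)`, and `G i σ` is the
matrix of the action of `σ` on `H^i(X, ℚ_ℓ)`. -/
structure Artin {K : Type} [Field K] [NumberField K] {ℓ : ℕ} [Fact ℓ.Prime]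
    (X : HKVariety K (PadicAlgCl ℓ)) {d : ℕ} (B : LLV d) extends RatBasis X.E.X B where
  G : ∀ i, GK K →* Matrix (Fin (B.n i)) (Fin (B.n i)) ℚ_[ℓ]
  hG : ∀ i σ, matOf (b i) (X.E.Φ σ i) = (G i σ).map (algebraMap ℚ_[ℓ] (PadicAlgCl ℓ))

/-- The property `P` holds for the elements near `1` of the inertia group of the maximal ideal `Q` of
the ring of all algebraic integers. -/
def NearInertia {K : Type} [Field K] [NumberField K] (Q : Ideal (𝓞 (AlgebraicClosure K)))
    (P : GK K → Prop) : Prop :=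
  ∃ O : Set (GK K), IsOpen O ∧ (1 : GK K) ∈ O ∧
    ∀ σ ∈ O, (∀ x : 𝓞 (AlgebraicClosure K), σ • x - x ∈ Q) → P σ

/-- The Hodge-Tate decomposition at the places above `ℓ`. For a maximal ideal `Q` above `ℓ` of the ring
of all algebraic integers `Θ i` is the operator of Sen of the representation `G i` on `H^i` of the
decomposition group of `Q` (over the completion `ℂ_ℓ` of an algebraic closure of `ℚ_ℓ`): minus the
operator which is `p` on the piece `H^(i - p)(X, Ω^p)` of the Hodge-Tate decomposition of `H^i`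
(Faltings). The decomposition is compatible with the cup product, hence it is given by an element `J` of
`so(H²)` (Verbitsky), as over the complex numbers. By the theorem of Sen, the Lie algebra of the image
of the inertia group of `Q` is the smallest subspace over `ℚ_ℓ` whose scalar extension contains `Θ i`;
in particular an endomorphism `a` of `H^i(X, ℚ_ℓ)` which commutes with `Θ i` commutes with an open
subgroup of the inertia group. -/
structure Sen {K : Type} [Field K] [NumberField K] {ℓ : ℕ} [Fact ℓ.Prime] {d : ℕ} {B : LLV d}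
    (G : ∀ i, GK K →* Matrix (Fin (B.n i)) (Fin (B.n i)) ℚ_[ℓ])
    (Q : Ideal (𝓞 (AlgebraicClosure K))) where
  J : Matrix (Fin (B.n 2)) (Fin (B.n 2)) ℂ_[ℓ]
  skew : SkewMat (B.q.map (algebraMap ℚ ℂ_[ℓ])) J
  Θ : ∀ i, Matrix (Fin (B.n i)) (Fin (B.n i)) ℂ_[ℓ]
  hΘ : ∀ i ≤ d, Θ i = -(((i : ℂ_[ℓ]) / 2) • 1 + ext ℂ_[ℓ] (B.ρ i) J)
  sen : ∀ i ≤ d, ∀ a : Matrix (Fin (B.n i)) (Fin (B.n i)) ℚ_[ℓ],
    Commute (a.map (algebraMap ℚ_[ℓ] ℂ_[ℓ])) (Θ i) → NearInertia Q fun σ => Commute a (G i σ)

/-! ## Families -/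

/-- The matrices of an action of the absolute Galois group of `F` on the `H^i(X_t, ℚ_ℓ)`, for a
finite family of hyperkähler varieties `X t`. -/
def Rep (F : Type) [Field F] {T : Type} (X : T → HKC) (ℓ : ℕ) [Fact ℓ.Prime] : Type :=
  ∀ t i, GK F →* Matrix (Fin ((X t).B.n i)) (Fin ((X t).B.n i)) ℚ_[ℓ]

section rep

variable {F : Type} [Field F] {T : Type} {X : T → HKC} {ℓ : ℕ} [Fact ℓ.Prime]

/-- The matrix of `σ` on `H^i(X_t, ℚ_ℓ)`. -/
def Rep.mat (G : Rep F X ℓ) (t : T) (i : ℕ) (σ : GK F) :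
    Matrix (Fin ((X t).B.n i)) (Fin ((X t).B.n i)) ℚ_[ℓ] :=
  G t i σ

/-- The elements `γ` and `σ` act in the same way on the cohomology of the `X t` and on `ℚ_ℓ(1)`. -/
def Rep.Same (G : Rep F X ℓ) {K : Type} [Field K] (G' : Rep K X ℓ) (γ : GK F) (σ : GK K) : Prop :=
  cyc F ℓ γ = cyc K ℓ σ ∧ ∀ t, ∀ i ≤ (X t).d, G.mat t i γ = G'.mat t i σ

/-- The Mumford-Tate conjecture for the sum of the `H²(X_t)`, in the form of Lie algebras: the
`ℚ_ℓ`-span of the logarithms of the elements of the Galois group is the `ℚ_ℓ`-span of the smallest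
rational Lie algebra whose complex span contains the operators which are `p` and `q` on `H^(p, q)`
(the Lie algebra of the Mumford-Tate group). -/
def Rep.MumfordTateTwo [Fintype T] [DecidableEq T] (G : Rep F X ℓ) : Prop :=
  galLie (fun σ => Matrix.blockDiagonal' fun t => G.mat t 2 σ) = ratSpan ℚ_[ℓ]
    (mtLie (Matrix.blockDiagonal' fun t => ((X t).W.V 2).D)
      (Matrix.blockDiagonal' fun t => ((X t).W.V 2).D'))

end rep

/-- A family of projective hyperkähler varieties `Y t` over a number field `K`, with the same rational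
cohomology as the complex varieties `X t`: the `ℓ`-adic cohomology and the crystalline cohomology
of the reductions (`Y t`), the comparison `C t` of the rational and the `ℓ`-adic cohomology, and the
Hodge-Tate decompositions at the places above `ℓ`. -/
structure Fibre {T : Type} (X : T → HKC) (ℓ : ℕ) [Fact ℓ.Prime] (K : Type) [Field K]
    [NumberField K] where
  Y : T → HKVariety K (PadicAlgCl ℓ)
  hd : ∀ t, (Y t).d = (X t).d
  C : ∀ t, Artin (Y t) (X t).B
  sen : ∀ t (Q : Ideal (𝓞 (AlgebraicClosure K))), Q.IsMaximal →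
    (ℓ : 𝓞 (AlgebraicClosure K)) ∈ Q → Nonempty (Sen (C t).G Q)

/-- The representations of the absolute Galois group of `K` on the cohomology of the `Y t`. -/
def Fibre.G {T : Type} {X : T → HKC} {ℓ : ℕ} [Fact ℓ.Prime] {K : Type} [Field K] [NumberField K]
    (D : Fibre X ℓ K) : Rep K X ℓ :=
  fun t i => (D.C t).G i

/-- The `ℓ`-adic cohomology of a finite family of projective hyperkähler varieties `X t` over a
subfield `F` of the field of complex numbers, finitely generated over `ℚ`: the matrices `G t i σ` of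
the action of `σ` on `H^i(X_t, ℚ_ℓ)` (for bases of the rational cohomology of `X_t(ℂ)`). By a theorem
of Serre some model of the family over a variety over `ℚ` with function field `F` has a fibre `D`
over a number field `K` such that the Galois groups of `F` and `K` have the same image in the group
of automorphisms of the cohomology of the `X_t` and of `ℚ_ℓ(1)` (`image`; one may take `K = F` if `F`
is a number field). `two` is the Mumford-Tate conjecture for the sum of the `H²(X_t)` (André,
Commelin). -/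
structure Etale (F : Type) [Field F] {T : Type} [Fintype T] [DecidableEq T] (X : T → HKC)
    (ℓ : ℕ) [Fact ℓ.Prime] where
  G : Rep F X ℓ
  K : Type
  [field : Field K]
  [numberField : NumberField K]
  D : Fibre X ℓ K
  image : ∀ γ : GK F, ∃ σ : GK K, G.Same D.G γ σ
  two : G.MumfordTateTwo

/-- A finite family of projective hyperkähler varieties over the finitely generated field
`F ⊆ ℂ`, with the `ℓ`-adic cohomology for all prime numbers `ℓ`. -/
structure Family (F : Type) [Field F] where
  T : Type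
  [fin : Fintype T]
  [dec : DecidableEq T]
  X : T → HKC
  E : ∀ (ℓ : ℕ) [Fact ℓ.Prime], Etale F X ℓ

attribute [instance] Family.fin Family.dec

/-- A product `P` of the varieties `X (τ s)`, `s ∈ S`, where the `X t` are the varieties of the family. -/
structure Product {F : Type} [Field F] (V : Family F) where
  S : Type
  [fin : Fintype S]
  [dec : DecidableEq S]
  τ : S → V.T

attribute [instance] Product.fin Product.dec

/-! ## Products -/

/-- The indices `(a_s)` of the Künneth decomposition of `H^i` of a product. -/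
abbrev KIx {S : Type} [Fintype S] (X : S → HKC) (i : ℕ) : Type :=
  {a : ∀ s, Fin ((X s).d + 1) // ∑ s, (a s : ℕ) = i}

/-- The index set of the basis of `H^i` of the product of the varieties `X s` (Künneth formula). -/
def Ix {S : Type} [Fintype S] [DecidableEq S] (X : S → HKC) (i : ℕ) : Type :=
  Σ a : KIx X i, ∀ s, Fin ((X s).B.n (a.1 s))

instance {S : Type} [Fintype S] [DecidableEq S] (X : S → HKC) (i : ℕ) : Fintype (Ix X i) :=
  Sigma.instFintype

/-- The operator on `H^i(ℂ)` of the product which is `p` on the part of type `(p, q)`. -/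
def hodgeOp {S : Type} [Fintype S] [DecidableEq S] (X : S → HKC) (i : ℕ) :
    Matrix (Ix X i) (Ix X i) ℂ :=
  Matrix.blockDiagonal' fun a : KIx X i => dkron fun s => ((X s).W.V (a.1 s)).D

/-- The rational class `v` of degree `2 j` on the product of the `X s` is a Hodge class: it lies in
`H^(j, j)`. -/
def IsHodge {S : Type} [Fintype S] [DecidableEq S] (X : S → HKC) (j : ℕ)
    (v : Ix X (2 * j) → ℚ) : Prop :=
  hodgeOp X (2 * j) *ᵥ (fun k => (v k : ℂ)) = (j : ℂ) • fun k => (v k : ℂ)

/-- The matrix of the action of `σ` on `H^i(ℚ_ℓ)` of the product (Künneth formula). -/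
def galMat {F : Type} [Field F] {T : Type} {X : T → HKC} {ℓ : ℕ} [Fact ℓ.Prime] (G : Rep F X ℓ)
    {S : Type} [Fintype S] [DecidableEq S] (τ : S → T) (i : ℕ) (σ : GK F) :
    Matrix (Ix (fun s => X (τ s)) i) (Ix (fun s => X (τ s)) i) ℚ_[ℓ] :=
  Matrix.blockDiagonal' fun a : KIx (fun s => X (τ s)) i => kron fun s => G.mat (τ s) (a.1 s) σ

/-! ## Group actions -/

section action

variable {Γ K E : Type} [Field K] [AddCommGroup E] [Module K E] (g : Γ → E → E)

/-- The subspace `N` is stable under the action `g`. -/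
def Stable (N : Submodule K E) : Prop := ∀ σ, ∀ x ∈ N, g σ x ∈ N

/-- The subspace `M` is semisimple for the action `g`: each stable subspace has a stable complement. -/
def Semisimple (M : Submodule K E) : Prop :=
  ∀ N ≤ M, Stable g N → ∃ N', Stable g N' ∧ N ⊓ N' = ⊥ ∧ N ⊔ N' = M

/-- `x` is invariant under the elements of `Δ`. -/
def Fixed {Γ E : Type} (g : Γ → E → E) (Δ : Set Γ) (x : E) : Prop := ∀ σ ∈ Δ, g σ x = x

end action

section product

variable {F : Type} [Field F] {V : Family F} (P : Product V)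

/-- The varieties whose product is `P`. -/
def Product.X (s : P.S) : HKC := V.X (P.τ s)

/-- The rational cohomology `H^i(P(ℂ), ℚ)`, in coordinates. -/
def Product.Q (i : ℕ) : Type := Ix P.X i → ℚ

instance (i : ℕ) : AddCommGroup (P.Q i) := Pi.addCommGroup

instance (i : ℕ) : Module ℚ (P.Q i) := Pi.Function.module (Ix P.X i) ℚ ℚ

/-- The `ℓ`-adic cohomology `H^i(P, ℚ_ℓ)`, in coordinates. -/
def Product.H (ℓ : ℕ) [Fact ℓ.Prime] (i : ℕ) : Type := Ix P.X i → ℚ_[ℓ]

instance (ℓ : ℕ) [Fact ℓ.Prime] (i : ℕ) : AddCommGroup (P.H ℓ i) := Pi.addCommGroup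

instance (ℓ : ℕ) [Fact ℓ.Prime] (i : ℕ) : Module ℚ_[ℓ] (P.H ℓ i) :=
  Pi.Function.module (Ix P.X i) ℚ_[ℓ] ℚ_[ℓ]

/-- The `ℓ`-adic class of the rational class `v` (comparison isomorphism). -/
def Product.cmp (ℓ : ℕ) [Fact ℓ.Prime] (i : ℕ) (v : P.Q i) : P.H ℓ i :=
  fun k => (v k : ℚ_[ℓ])

/-- The action of `σ` on `H^i(P, ℚ_ℓ)`. -/
def Product.gal (ℓ : ℕ) [Fact ℓ.Prime] (i : ℕ) (σ : GK F) (x : P.H ℓ i) : P.H ℓ i :=
  galMat (V.E ℓ).G P.τ i σ *ᵥ x

/-- The action of `σ` on `H^(2 j)(P, ℚ_ℓ(j))`. -/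
def Product.galT (ℓ : ℕ) [Fact ℓ.Prime] (j : ℕ) (σ : GK F) (x : P.H ℓ (2 * j)) :
    P.H ℓ (2 * j) :=
  cyc F ℓ σ ^ j • P.gal ℓ (2 * j) σ x

/-- The class `x ∈ H^(2 j)(P, ℚ_ℓ(j))` is a Tate class: it is invariant under a subgroup of finite index
of the Galois group of `F`. -/
def Product.IsTate (ℓ : ℕ) [Fact ℓ.Prime] (j : ℕ) (x : P.H ℓ (2 * j)) : Prop :=
  ∃ Δ : Subgroup (GK F), Δ.FiniteIndex ∧ Fixed (P.galT ℓ j) Δ x

/-- The `ℚ_ℓ`-span of the `ℓ`-adic classes of the elements of the set `A` of rational classes. -/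
def Product.span (ℓ : ℕ) [Fact ℓ.Prime] (i : ℕ) (A : Set (P.Q i)) : Submodule ℚ_[ℓ] (P.H ℓ i) :=
  Submodule.span ℚ_[ℓ] (P.cmp ℓ i '' A)

/-- A smooth projective variety `Y` over `F` and a codimension `i` such that `H^(2 i)(Y)(i)` embeds in
`H^(2 j)(P)(j)` by a correspondence; for instance `Y = P`, `i = j`, or any variety `Y` for which there
is a surjective morphism from `P` to `Y`, and `i = j` (pull-back). `M` is the subspace
`H^(2 i)(Y(ℂ), ℚ(i))` of `H^(2 j)(P(ℂ), ℚ(j))`; its `ℚ_ℓ`-span is `H^(2 i)(Y, ℚ_ℓ(i))`. `A` is the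
`ℚ`-span of the classes of the cycles of codimension `i` on `Y`, over an algebraic closure of `F`;
they are Hodge classes. The Galois group of `F` acts on `A` by conjugation of the cycles (`conj`), and
this is compatible with the action on the `ℓ`-adic classes, for all `ℓ`. -/
structure Cycles (j : ℕ) where
  M : Submodule ℚ (P.Q (2 * j))
  stable : ∀ (ℓ : ℕ) [Fact ℓ.Prime], Stable (P.galT ℓ j) (P.span ℓ (2 * j) M)
  A : Submodule ℚ (P.Q (2 * j))
  le : A ≤ M
  hodge : ∀ a ∈ A, IsHodge P.X j a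
  conj : GK F → P.Q (2 * j) → P.Q (2 * j)
  conj_mem : ∀ σ, ∀ a ∈ A, conj σ a ∈ A
  compat : ∀ (ℓ : ℕ) [Fact ℓ.Prime] (σ : GK F), ∀ a ∈ A,
    P.galT ℓ j σ (P.cmp ℓ (2 * j) a) = P.cmp ℓ (2 * j) (conj σ a)

variable {P} {j : ℕ} (Z : Cycles P j)

/-- The Hodge classes on `Y`. -/
def Cycles.hodgeClasses : Set (P.Q (2 * j)) := {v | v ∈ Z.M ∧ IsHodge P.X j v}

/-- The Tate classes on `Y`. -/
def Cycles.tateClasses (ℓ : ℕ) [Fact ℓ.Prime] : Set (P.H ℓ (2 * j)) :=
  {x | x ∈ P.span ℓ (2 * j) Z.M ∧ P.IsTate ℓ j x}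

/-- The Tate conjecture for `Y` in codimension `i`, over the extension of `F` that belongs to the
subgroup `Δ` of the Galois group: the classes in `H^(2 i)(Y, ℚ_ℓ(i))` that are invariant under `Δ` are
linear combinations of classes of cycles that are invariant under `Δ`. -/
def Cycles.TateOver (ℓ : ℕ) [Fact ℓ.Prime] (Δ : Subgroup (GK F)) : Prop :=
  ∀ x ∈ P.span ℓ (2 * j) Z.M, Fixed (P.galT ℓ j) Δ x →
    x ∈ P.span ℓ (2 * j) {a | a ∈ Z.A ∧ Fixed Z.conj Δ a}

/-- The Hodge conjecture for `Y` (in codimension `i`), and several forms of the Tate conjecture for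
`Y`, are equivalent: over all finite extensions and for all `ℓ`; over the algebraic closure, for all
`ℓ` or for one `ℓ`; for one `ℓ` and over one field, provided that it contains the extension of `F`
which belongs to `Δ₀ ℓ`. -/
def Cycles.Equivalences (Δ₀ : ∀ (ℓ : ℕ) [Fact ℓ.Prime], Subgroup (GK F)) : Prop :=
  [Z.hodgeClasses ⊆ Z.A,
    ∀ (ℓ : ℕ) [Fact ℓ.Prime] (Δ : Subgroup (GK F)), Δ.FiniteIndex → Z.TateOver ℓ Δ,
    ∀ (ℓ : ℕ) [Fact ℓ.Prime], Z.tateClasses ℓ ⊆ P.span ℓ (2 * j) Z.A,
    ∃ (ℓ : ℕ) (_ : Fact ℓ.Prime), Z.tateClasses ℓ ⊆ P.span ℓ (2 * j) Z.A,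
    ∃ (ℓ : ℕ) (_ : Fact ℓ.Prime) (Δ : Subgroup (GK F)), Δ ≤ Δ₀ ℓ ∧ Z.TateOver ℓ Δ].TFAE

/-- The Tate classes on `Y` are the linear combinations of Hodge classes with coefficients in `ℚ_ℓ`. The
space of Tate classes has the same dimension over `ℚ_ℓ` as the space of Hodge classes over `ℚ`, and
the same is true for the spans of the classes of cycles. -/
def Cycles.SameClasses (ℓ : ℕ) [Fact ℓ.Prime] : Prop :=
  Z.tateClasses ℓ = P.span ℓ (2 * j) Z.hodgeClasses ∧
  Set.finrank ℚ_[ℓ] (Z.tateClasses ℓ) = Set.finrank ℚ Z.hodgeClasses ∧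
  Set.finrank ℚ_[ℓ] (P.cmp ℓ (2 * j) '' Z.A) = Set.finrank ℚ (Z.A : Set (P.Q (2 * j)))

end product

end

end Run7.h869.HG
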